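import Mathlib
import Pool.Agent.Helper38.SG.DetDefs
import Pool.Agent.Helper38.SG.Iwa2
import Pool.Agent.Helper38.SG.LinB

/-! # Sobolev gap, piece DET: the determinant `D` -/

open Filter Topology Set
open scoped RealInnerProductSpace ContDiff
open Pool.Agent.Helper38.SG

universe u

namespace Pool.Agent.Helper50.SG

section det
variable {n : Type*} [Fintype n] [DecidableEq n]

theorem det_differentiable :
    Differentiable ℝ (fun m : n → n → ℝ => Matrix.det (Matrix.of m)) := by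
  simp only [Matrix.det_apply, Matrix.of_apply]
  fun_prop

theorem det_hasDerivAt_line (A : Matrix n n ℝ) :
    HasDerivAt (fun s : ℝ => Matrix.det (1 + s • A)) (Matrix.trace A) 0 := by
  set q := (Matrix.det (1 + (Polynomial.X : Polynomial ℝ) • A.map Polynomial.C)).divX.divX
    with hq
  have h : HasDerivAt (fun s : ℝ => 1 + Matrix.trace A * s + q.eval s * s ^ 2)
      (Matrix.trace A) 0 := by
    have h1 := (((hasDerivAt_id (0 : ℝ)).const_mul (Matrix.trace A)).const_add 1).add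
      ((q.hasDerivAt 0).mul (hasDerivAt_pow 2 (0 : ℝ)))
    refine HasDerivAt.congr_deriv (h1.congr_of_eventuallyEq
      (Eventually.of_forall fun s => rfl)) ?_
    simp
  refine h.congr_of_eventuallyEq (Eventually.of_forall fun s => ?_)
  exact Matrix.det_one_add_smul s A

theorem det_hasDerivAt {M : ℝ → n → n → ℝ} {A : Matrix n n ℝ}
    (h0 : M 0 = (1 : Matrix n n ℝ)) (h : ∀ i j, HasDerivAt (fun s => M s i j) (A i j) 0) :
    HasDerivAt (fun s => Matrix.det (Matrix.of (M s))) (Matrix.trace A) 0 := by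
  set F : (n → n → ℝ) → ℝ := fun m => Matrix.det (Matrix.of m) with hF
  have hd : HasFDerivAt F (fderiv ℝ F (1 : Matrix n n ℝ)) (1 : Matrix n n ℝ) :=
    (det_differentiable (n := n) _).hasFDerivAt
  have h1 : HasDerivAt M (A : n → n → ℝ) 0 :=
    hasDerivAt_pi.2 fun i => hasDerivAt_pi.2 fun j => h i j
  have h2 : HasDerivAt (F ∘ M) (fderiv ℝ F (1 : Matrix n n ℝ) A) 0 := by
    have hd' : HasFDerivAt F (fderiv ℝ F (1 : Matrix n n ℝ)) (M 0) := by rw [h0]; exact hd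
    exact hd'.comp_hasDerivAt (0 : ℝ) h1
  have h3 : HasDerivAt (fun s : ℝ => (fun i j => (1 : Matrix n n ℝ) i j + s * A i j : n → n → ℝ))
      (A : n → n → ℝ) 0 := by
    refine hasDerivAt_pi.2 fun i => hasDerivAt_pi.2 fun j => ?_
    have := ((hasDerivAt_id (0 : ℝ)).mul_const (A i j)).const_add ((1 : Matrix n n ℝ) i j)
    simpa using this
  have h4 : HasDerivAt (F ∘ fun s : ℝ =>
      (fun i j => (1 : Matrix n n ℝ) i j + s * A i j : n → n → ℝ))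
      (fderiv ℝ F (1 : Matrix n n ℝ) A) 0 := by
    have hd' : HasFDerivAt F (fderiv ℝ F (1 : Matrix n n ℝ))
        ((fun s : ℝ => (fun i j => (1 : Matrix n n ℝ) i j + s * A i j : n → n → ℝ)) 0) := by
      simpa using hd
    exact hd'.comp_hasDerivAt (0 : ℝ) h3
  have h5 : fderiv ℝ F (1 : Matrix n n ℝ) A = Matrix.trace A := by
    refine h4.unique ((det_hasDerivAt_line A).congr_of_eventuallyEq
      (Eventually.of_forall fun s => ?_))
    simp only [Function.comp, hF]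
    congr 1
  rw [h5] at h2
  exact h2

end det

section lin
variable {𝔤 : Type u} [NormedAddCommGroup 𝔤] [InnerProductSpace ℝ 𝔤] [FiniteDimensional ℝ 𝔤]

theorem linearMap_det_hasDerivAt {T : ℝ → 𝔤 →ₗ[ℝ] 𝔤} {A : 𝔤 →ₗ[ℝ] 𝔤} (h0 : T 0 = LinearMap.id)
    (h : ∀ Y, HasDerivAt (fun s => T s Y) (A Y) 0) :
    HasDerivAt (fun s => LinearMap.det (T s)) (LinearMap.trace ℝ 𝔤 A) 0 := by
  classical
  set b := Module.finBasis ℝ 𝔤 with hb
  have h1 := det_hasDerivAt (M := fun s => LinearMap.toMatrix b b (T s))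
    (A := LinearMap.toMatrix b b A) (by simp only [h0]; exact LinearMap.toMatrix_id b) (fun i j => by
      simp only [LinearMap.toMatrix_apply]
      exact (LinearMap.toContinuousLinearMap (b.coord i)).hasFDerivAt.comp_hasDerivAt (0 : ℝ)
        (h (b j)))
  rw [← LinearMap.trace_eq_matrix_trace ℝ b A] at h1
  refine h1.congr_of_eventuallyEq (Eventually.of_forall fun s => ?_)
  simp only []
  rw [← LinearMap.det_toMatrix b (T s)]
  rfl

theorem linearMap_det_continuous {X : Type*} [TopologicalSpace X] {T : X → 𝔤 →ₗ[ℝ] 𝔤}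
    (h : ∀ Y, Continuous fun x => T x Y) : Continuous fun x => LinearMap.det (T x) := by
  classical
  set b := Module.finBasis ℝ 𝔤 with hb
  have h1 : ∀ x, LinearMap.det (T x) = Matrix.det (LinearMap.toMatrix b b (T x)) := fun x =>
    (LinearMap.det_toMatrix b (T x)).symm
  simp only [h1]
  refine Continuous.matrix_det ?_
  refine continuous_matrix fun i j => ?_
  simp only [LinearMap.toMatrix_apply]
  exact (LinearMap.toContinuousLinearMap (b.coord i)).continuous.comp (h (b j))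

theorem abs_det_le_one (T : 𝔤 →ₗ[ℝ] 𝔤) (h : ∀ v, ‖T v‖ ≤ ‖v‖) : |LinearMap.det T| ≤ 1 := by
  let _ : MeasurableSpace 𝔤 := borel 𝔤
  have : BorelSpace 𝔤 := ⟨rfl⟩
  have h1 := MeasureTheory.Measure.addHaar_image_linearMap (MeasureTheory.volume : MeasureTheory.Measure 𝔤) T
    (Metric.ball (0 : 𝔤) 1)
  have h2 : T '' Metric.ball (0 : 𝔤) 1 ⊆ Metric.ball (0 : 𝔤) 1 := by
    rintro _ ⟨v, hv, rfl⟩
    simp only [Metric.mem_ball, dist_zero_right] at hv ⊢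
    exact (h v).trans_lt hv
  have h3 := MeasureTheory.measure_mono (μ := (MeasureTheory.volume : MeasureTheory.Measure 𝔤)) h2
  rw [h1] at h3
  have h4 : (MeasureTheory.volume : MeasureTheory.Measure 𝔤) (Metric.ball (0 : 𝔤) 1) ≠ 0 :=
    (Metric.measure_ball_pos _ _ one_pos).ne'
  have h5 : (MeasureTheory.volume : MeasureTheory.Measure 𝔤) (Metric.ball (0 : 𝔤) 1) ≠ ⊤ :=
    MeasureTheory.measure_ball_lt_top.ne
  have h6 : ENNReal.ofReal |LinearMap.det T| ≤ 1 := by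
    by_contra hc
    rw [not_le] at hc
    have := ENNReal.mul_lt_mul_left h4 h5 hc
    rw [one_mul] at this
    exact absurd h3 (not_le.2 this)
  rwa [ENNReal.ofReal_le_one] at h6

end lin

variable {G 𝔤 : Type u} [Group G] [TopologicalSpace G] [IsTopologicalGroup G] [T2Space G]
  [NormedAddCommGroup 𝔤] [InnerProductSpace ℝ 𝔤] [FiniteDimensional ℝ 𝔤]

variable (P : ParData G 𝔤)

/-- the linear map `E Ad(g) E + (1 - E)` -/
noncomputable def Tn (g : G) : 𝔤 →ₗ[ℝ] 𝔤 :=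
  (P.En : 𝔤 →ₗ[ℝ] 𝔤) ∘ₗ P.Ad g ∘ₗ (P.En : 𝔤 →ₗ[ℝ] 𝔤) +
    (LinearMap.id - (P.En : 𝔤 →ₗ[ℝ] 𝔤))

theorem Dt_eq (g : G) : P.Dt g = LinearMap.det (Tn P g) := rfl

theorem Tn_apply (g : G) (v : 𝔤) : Tn P g v = P.En (P.Ad g (P.En v)) + (v - P.En v) := rfl

theorem En_mem (v : 𝔤) : P.En v ∈ P.𝔫 := Submodule.starProjection_apply_mem _ _

theorem En_of_mem {v : 𝔤} (hv : v ∈ P.𝔫) : P.En v = v :=
  Submodule.starProjection_eq_self_iff.2 hv

theorem En_En (v : 𝔤) : P.En (P.En v) = P.En v := En_of_mem P (En_mem P v)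

theorem En_orth {v : 𝔤} (hv : v ∈ P.𝔫ᗮ) : P.En v = 0 :=
  (Submodule.starProjection_apply_eq_zero_iff _).2 hv

theorem sub_En_mem (v : 𝔤) : v - P.En v ∈ P.𝔫ᗮ := Submodule.sub_starProjection_mem_orthogonal v

theorem Tn_mul_right (g p : G) (hp : ∀ X ∈ P.𝔫, P.Ad p X ∈ P.𝔫) :
    Tn P (g * p) = Tn P g ∘ₗ Tn P p := by
  ext v
  rw [LinearMap.comp_apply, Tn_apply, Tn_apply P p, En_of_mem P (hp _ (En_mem P v)), Tn_apply]
  simp only [map_add, map_sub, En_En, sub_self, add_zero, map_mul, Module.End.mul_apply,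
    En_of_mem P (hp _ (En_mem P v))]
  abel

theorem Tn_mul_left (a g : G) (ha : ∀ X ∈ P.𝔫ᗮ, P.Ad a X ∈ P.𝔫ᗮ) :
    Tn P (a * g) = Tn P a ∘ₗ Tn P g := by
  ext v
  rw [LinearMap.comp_apply, Tn_apply, Tn_apply P a, Tn_apply P g]
  have h1 := En_orth P (ha _ (sub_En_mem P (P.Ad g (P.En v))))
  rw [map_sub, map_sub, sub_eq_zero] at h1
  simp only [map_add, map_sub, En_En, sub_self, add_zero, map_mul, Module.End.mul_apply, h1]
  abel

theorem continuous_Dt : Continuous P.Dt := by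
  have : ∀ Y, Continuous fun g => Tn P g Y := by
    intro Y
    simp only [Tn_apply]
    exact (P.En.continuous.comp (P.continuous_Ad (P.En Y))).add continuous_const
  exact linearMap_det_continuous this

theorem Tn_one : Tn P 1 = LinearMap.id := by
  ext v
  rw [Tn_apply, map_one, Module.End.one_apply, En_En, LinearMap.id_apply]
  abel

theorem Dt_one : P.Dt 1 = 1 := by
  rw [Dt_eq, Tn_one, LinearMap.det_id]

theorem norm_Ad_K {k : G} (hk : k ∈ P.K) (X : 𝔤) : ‖P.Ad k X‖ = ‖X‖ := by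
  rw [norm_eq_sqrt_real_inner, norm_eq_sqrt_real_inner, P.Ad_isom k hk]

theorem norm_Tn_le {k : G} (hk : k ∈ P.K) (v : 𝔤) : ‖Tn P k v‖ ≤ ‖v‖ := by
  have hp : ∀ w : 𝔤, ‖P.En w + (v - P.En v)‖ ^ 2 = ‖P.En w‖ ^ 2 + ‖v - P.En v‖ ^ 2 := by
    intro w
    simp only [sq]
    exact norm_add_sq_eq_norm_sq_add_norm_sq_of_inner_eq_zero _ _
      (Submodule.inner_right_of_mem_orthogonal (En_mem P _) (sub_En_mem P v))
  have h1 : ‖Tn P k v‖ ^ 2 = ‖P.En (P.Ad k (P.En v))‖ ^ 2 + ‖v - P.En v‖ ^ 2 := by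
    rw [Tn_apply]
    exact hp _
  have h2 : ‖v‖ ^ 2 = ‖P.En v‖ ^ 2 + ‖v - P.En v‖ ^ 2 := by
    rw [← hp v, add_sub_cancel]
  have h3 : ‖P.En (P.Ad k (P.En v))‖ ≤ ‖P.En v‖ := by
    rw [← norm_Ad_K P hk (P.En v)]
    exact Submodule.norm_starProjection_apply_le _ _
  have h4 : ‖Tn P k v‖ ^ 2 ≤ ‖v‖ ^ 2 := by
    rw [h1, h2]
    have := pow_le_pow_left₀ (norm_nonneg _) h3 2
    linarith
  exact le_of_sq_le_sq h4 (norm_nonneg _)

theorem abs_Dt_le {k : G} (hk : k ∈ P.K) : |P.Dt k| ≤ 1 :=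
  abs_det_le_one _ (norm_Tn_le P hk)

theorem Dt_mul_right (g p : G) (hp : ∀ X ∈ P.𝔫, P.Ad p X ∈ P.𝔫) :
    P.Dt (g * p) = P.Dt g * P.Dt p := by
  rw [Dt_eq, Tn_mul_right P g p hp, LinearMap.det_comp]; rfl

theorem Dt_mul_left (a g : G) (ha : ∀ X ∈ P.𝔫ᗮ, P.Ad a X ∈ P.𝔫ᗮ) :
    P.Dt (a * g) = P.Dt a * P.Dt g := by
  rw [Dt_eq, Tn_mul_left P a g ha, LinearMap.det_comp]; rfl

theorem Dt_mul_M_sq (x : G) {m : G} (hm : m ∈ P.M) : P.Dt (x * m) ^ 2 = P.Dt x ^ 2 := by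
  have h1 : P.Dt (m⁻¹ * m) = P.Dt m⁻¹ * P.Dt m := Dt_mul_right P _ _ fun X hX => P.Ad_M_𝔫 hm hX
  rw [inv_mul_cancel, Dt_one] at h1
  have h2 := abs_Dt_le P hm.1
  have h3 := abs_Dt_le P (inv_mem hm.1 : m⁻¹ ∈ P.K)
  have h4 : |P.Dt m⁻¹| * |P.Dt m| = 1 := by rw [← abs_mul, ← h1, abs_one]
  have h5 : |P.Dt m| = 1 := by
    refine le_antisymm h2 ?_
    calc (1 : ℝ) = |P.Dt m⁻¹| * |P.Dt m| := h4.symm
      _ ≤ 1 * |P.Dt m| := mul_le_mul_of_nonneg_right h3 (abs_nonneg _)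
      _ = |P.Dt m| := one_mul _
  rw [Dt_mul_right P x m fun X hX => P.Ad_M_𝔫 hm hX, mul_pow, ← sq_abs (P.Dt m), h5, one_pow,
    mul_one]

/-- `D(exp X) = e^{2ρ(X)}` if `[X, 𝔫] ⊆ 𝔫` -/
theorem Dt_exp {X : 𝔤} (hX : ∀ Y ∈ P.𝔫, P.br X Y ∈ P.𝔫) : P.Dt (P.exp X) = Real.exp (2 * P.ρ X) := by
  set c := 2 * P.ρ X with hc
  have hA : ∀ s : ℝ, ∀ Y ∈ P.𝔫, P.Ad (P.exp (s • X)) Y ∈ P.𝔫 := fun s Y hY =>
    P.Ad_exp_mem P.𝔫 (fun Z hZ => by
      rw [map_smul, LinearMap.smul_apply]; exact P.𝔫.smul_mem _ (hX Z hZ)) hY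
  have hmul : ∀ s t : ℝ, P.Dt (P.exp ((s + t) • X)) = P.Dt (P.exp (s • X)) * P.Dt (P.exp (t • X)) :=
    fun s t => by rw [P.exp_add_smul, Dt_mul_right P _ _ (hA t)]
  have htr : LinearMap.trace ℝ 𝔤 ((P.En : 𝔤 →ₗ[ℝ] 𝔤) ∘ₗ P.br X ∘ₗ (P.En : 𝔤 →ₗ[ℝ] 𝔤)) = c := by
    rw [hc, P.ρ_apply]
    have : (P.En : 𝔤 →ₗ[ℝ] 𝔤) ∘ₗ P.br X ∘ₗ (P.En : 𝔤 →ₗ[ℝ] 𝔤) =
        P.br X ∘ₗ (P.𝔫.starProjection : 𝔤 →ₗ[ℝ] 𝔤) := by
      ext v
      exact En_of_mem P (hX _ (En_mem P v))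
    rw [this]; ring
  have hd0 : HasDerivAt (fun s : ℝ => P.Dt (P.exp (s • X))) c 0 := by
    rw [← htr]
    refine linearMap_det_hasDerivAt (T := fun s => Tn P (P.exp (s • X))) ?_ ?_
    · simp only [zero_smul, P.exp_zero, Tn_one]
    · intro Y
      simp only [Tn_apply]
      have := P.En.hasFDerivAt.comp_hasDerivAt (0 : ℝ) (P.hasDerivAt_Ad X (P.En Y))
      exact this.add_const _
  have hd : ∀ s : ℝ, HasDerivAt (fun s : ℝ => P.Dt (P.exp (s • X))) (P.Dt (P.exp (s • X)) * c) s := by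
    intro s
    have h1 : (fun u : ℝ => P.Dt (P.exp (u • X))) =
        fun u => P.Dt (P.exp (s • X)) * P.Dt (P.exp ((u - s) • X)) := by
      funext u
      rw [← hmul, add_sub_cancel]
    rw [h1]
    have h2 : HasDerivAt (fun u : ℝ => P.Dt (P.exp ((u - s) • X))) c s := by
      have h3 : HasDerivAt (fun s : ℝ => P.Dt (P.exp (s • X))) c (s - s) := by
        rw [sub_self]; exact hd0
      have := HasDerivAt.comp (h := fun u : ℝ => u - s) s h3 ((hasDerivAt_id s).sub_const s)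
      simpa [Function.comp_def] using this
    exact h2.const_mul _
  have hg : ∀ s : ℝ, HasDerivAt (fun s : ℝ => P.Dt (P.exp (s • X)) * Real.exp (-(c * s))) 0 s := by
    intro s
    have h1 : HasDerivAt (fun s : ℝ => Real.exp (-(c * s))) (Real.exp (-(c * s)) * (-c)) s := by
      have := ((hasDerivAt_id s).const_mul c).neg.exp
      simpa using this
    have := (hd s).mul h1
    refine this.congr_deriv ?_
    ring
  have hconst := is_const_of_deriv_eq_zero (fun s => (hg s).differentiableAt)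
    (fun s => (hg s).deriv) 1 0
  simp only [one_smul, mul_one, zero_smul, mul_zero, neg_zero, Real.exp_zero, P.exp_zero,
    Dt_one] at hconst
  have h2 := Real.exp_pos (-c)
  have h3 : Real.exp c * Real.exp (-c) = 1 := by rw [← Real.exp_add, add_neg_cancel, Real.exp_zero]
  exact mul_right_cancel₀ h2.ne' (hconst.trans h3.symm)

theorem Dt_exp_𝔞 {H : 𝔤} (hH : H ∈ P.𝔞) : P.Dt (P.exp H) = Real.exp (2 * P.ρ H) :=
  Dt_exp P fun _ hY => P.br_ker_𝔫 P.br_self P.jacobi (P.br_H0_𝔞 hH) hY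

theorem Dt_exp_𝔫 {X : 𝔤} (hX : X ∈ P.𝔫) : P.Dt (P.exp X) = 1 := by
  rw [Dt_exp P fun _ hY => P.br_𝔫_𝔫 P.br_self P.jacobi hX hY, P.ρ_𝔫 P.br_self P.jacobi hX,
    mul_zero, Real.exp_zero]

theorem Ad_exp_𝔞_orth {H : 𝔤} (hH : H ∈ P.𝔞) {X : 𝔤} (hX : X ∈ P.𝔫ᗮ) :
    P.Ad (P.exp H) X ∈ P.𝔫ᗮ := by
  refine P.Ad_exp_mem P.𝔫ᗮ (fun Y hY => ?_) hX
  rw [Submodule.mem_orthogonal] at hY ⊢
  intro Z hZ
  rw [← P.ad_symm hH]
  exact hY _ (P.br_ker_𝔫 P.br_self P.jacobi (P.br_H0_𝔞 hH) hZ)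

/-- the key lower bound for the Iwasawa projection -/
theorem exp_mul_abs_Dt_le {k : G} (_hk : k ∈ P.K) (t : ℝ) :
    Real.exp (2 * t * P.c) * |P.Dt k| ≤
      Real.exp (2 * P.ρ (P.η (P.exp (t • (P.X0 : 𝔤)) * k))) := by
  set x := P.exp (t • (P.X0 : 𝔤)) * k with hx
  have hX0 : t • (P.X0 : 𝔤) ∈ P.𝔞 := P.𝔞.smul_mem _ P.X0.2
  have h1 : P.Dt x = Real.exp (2 * t * P.c) * P.Dt k := by
    rw [hx, Dt_mul_left P _ _ fun X hX => Ad_exp_𝔞_orth P hX0 hX, Dt_exp_𝔞 P hX0, map_smul,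
      smul_eq_mul]
    congr 2
    unfold ParData.c
    ring
  obtain ⟨X, hX, hxX⟩ := P.exists_𝔫 x
  have h2 : P.Dt x = P.Dt (P.κ x) * Real.exp (2 * P.ρ (P.η x)) := by
    conv_lhs => rw [hxX]
    rw [Dt_mul_right P _ (P.exp X) fun Y hY =>
        P.Ad_exp_mem P.𝔫 (fun _ hZ => P.br_𝔫_𝔫 P.br_self P.jacobi hX hZ) hY,
      Dt_mul_right P _ (P.exp (P.η x)) fun Y hY => P.Ad_exp_𝔫 (P.η_mem x) hY,
      Dt_exp_𝔫 P hX, mul_one, Dt_exp_𝔞 P (P.η_mem x)]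
  have h3 : Real.exp (2 * t * P.c) * |P.Dt k| = |P.Dt (P.κ x)| * Real.exp (2 * P.ρ (P.η x)) := by
    have h4 : |Real.exp (2 * t * P.c) * P.Dt k| = |P.Dt (P.κ x) * Real.exp (2 * P.ρ (P.η x))| := by
      rw [← h1, h2]
    rwa [abs_mul, abs_mul, Real.abs_exp, Real.abs_exp] at h4
  rw [h3]
  calc |P.Dt (P.κ x)| * Real.exp (2 * P.ρ (P.η x)) ≤ 1 * Real.exp (2 * P.ρ (P.η x)) :=
        mul_le_mul_of_nonneg_right (abs_Dt_le P (P.κ_mem x)) (Real.exp_pos _).le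
    _ = _ := one_mul _

end Pool.Agent.Helper50.SG
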