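import Pool.Agent.Helper38.SG.CalcA

/-! # Sobolev gap, piece CALC-B: smooth functions and right derivatives -/

open Filter Topology Set
open scoped RealInnerProductSpace ContDiff
open Pool.Agent.Helper38.SG

universe u

namespace Pool.Agent.Helper50.SG

variable {G 𝔤 : Type u} [Group G] [TopologicalSpace G] [IsTopologicalGroup G]
  [NormedAddCommGroup 𝔤] [InnerProductSpace ℝ 𝔤] [FiniteDimensional ℝ 𝔤]

omit [FiniteDimensional ℝ 𝔤] [IsTopologicalGroup G] in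
theorem map_exp_nhds (L : LieData G 𝔤) : map L.exp (𝓝 0) = 𝓝 1 := by
  obtain ⟨e, h0, he⟩ := L.exp_chart
  have h1 := e.map_nhds_eq h0
  rw [he 0 h0, L.exp_zero] at h1
  rw [← h1]
  apply Filter.map_congr
  filter_upwards [e.open_source.mem_nhds h0] with X hX
  exact (he X hX).symm

omit [FiniteDimensional ℝ 𝔤] in
theorem map_mul_exp_nhds (L : LieData G 𝔤) (x : G) :
    map (fun X => x * L.exp X) (𝓝 0) = 𝓝 x := by
  have h : (fun X => x * L.exp X) = (fun y => x * y) ∘ L.exp := rfl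
  rw [h, ← Filter.map_map, map_exp_nhds]
  have := (Homeomorph.mulLeft x).map_nhds_eq 1
  simp only [Homeomorph.coe_mulLeft, mul_one] at this
  exact this

variable {F : Type*} [NormedAddCommGroup F] [NormedSpace ℝ F]

omit [FiniteDimensional ℝ 𝔤] in
theorem Smooth.continuous (L : LieData G 𝔤) {f : G → F} (hf : L.Smooth f) : Continuous f := by
  rw [continuous_iff_continuousAt]
  intro x
  rw [ContinuousAt, ← map_mul_exp_nhds L x, Filter.tendsto_map'_iff]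
  have h := (hf x).continuousAt
  rw [ContinuousAt] at h
  simpa [L.exp_zero, Function.comp_def] using h

omit [FiniteDimensional ℝ 𝔤] [IsTopologicalGroup G] in
theorem hasFDerivAt_mul_exp (L : LieData G 𝔤) {f : G → F} (hf : L.Smooth f) (x : G) :
    HasFDerivAt (fun Y : 𝔤 => f (x * L.exp Y)) (fderiv ℝ (fun Y : 𝔤 => f (x * L.exp Y)) 0) 0 :=
  ((hf x).differentiableAt (by simp)).hasFDerivAt

omit [FiniteDimensional ℝ 𝔤] [IsTopologicalGroup G] in
theorem hasDerivAt_rD (L : LieData G 𝔤) {f : G → F} (hf : L.Smooth f) (X : 𝔤) (x : G) (t : ℝ) :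
    HasDerivAt (fun t : ℝ => f (x * L.exp (t • X))) (L.rD X f (x * L.exp (t • X))) t := by
  have h1 := hasFDerivAt_mul_exp L hf (x * L.exp (t • X))
  have h2 : HasDerivAt (fun s : ℝ => (s - t) • X) X t := by
    simpa using ((hasDerivAt_id t).sub_const t).smul_const X
  have h3 : HasFDerivAt (fun Y : 𝔤 => f (x * L.exp (t • X) * L.exp Y))
      (fderiv ℝ (fun Y : 𝔤 => f (x * L.exp (t • X) * L.exp Y)) 0) ((t - t) • X) := by
    simpa using h1
  have h4 := h3.comp_hasDerivAt t h2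
  refine h4.congr_of_eventuallyEq (Eventually.of_forall fun s => ?_)
  simp only [Function.comp_apply]
  rw [mul_assoc, ← L.exp_add_smul]
  simp

omit [FiniteDimensional ℝ 𝔤] [IsTopologicalGroup G] in
theorem mulChart (L : LieData G 𝔤) {f : G → F} (hf : L.Smooth f) (x : G) :
    ∃ Φ : 𝔤 × 𝔤 → F, ContDiffAt ℝ ∞ Φ (0, 0) ∧
      ∀ᶠ p in 𝓝 ((0, 0) : 𝔤 × 𝔤), f (x * L.exp p.1 * L.exp p.2) = Φ p := by
  obtain ⟨m, hm, hm0, hme⟩ := L.mul_smooth
  refine ⟨fun p => f (x * L.exp (m p)), ?_, ?_⟩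
  · have h := hf x
    rw [← hm0] at h
    exact h.comp (0, 0) hm
  · filter_upwards [hme] with p hp
    rw [mul_assoc, hp]

/-- the partial derivative with respect to the second variable at `0` -/
theorem pdiff_snd {E : Type*} [NormedAddCommGroup E] [NormedSpace ℝ E] {Φ : E × E → F}
    (hΦ : ContDiffAt ℝ ∞ Φ (0, 0)) (X : E) :
    ∀ᶠ Z in 𝓝 (0 : E), fderiv ℝ (fun W => Φ (Z, W)) 0 X = fderiv ℝ Φ (Z, 0) (0, X) := by
  have h1 : ∀ᶠ p in 𝓝 ((0, 0) : E × E), DifferentiableAt ℝ Φ p := by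
    have h2 : ContDiffAt ℝ 1 Φ (0, 0) := hΦ.of_le (by exact_mod_cast le_top)
    filter_upwards [h2.eventually (by simp)] with p hp
    exact hp.differentiableAt (by simp)
  have h3 : ContinuousAt (fun Z : E => (Z, (0 : E))) 0 := by fun_prop
  filter_upwards [h3.eventually h1] with Z hZ
  have h4 : HasFDerivAt (fun W : E => (Z, W)) (ContinuousLinearMap.inr ℝ E E) 0 :=
    hasFDerivAt_prodMk_right Z 0
  have h5 := (hZ.hasFDerivAt.comp (0 : E) h4).fderiv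
  have h6 : (Φ ∘ fun W => (Z, W)) = fun W => Φ (Z, W) := rfl
  rw [← h6, h5]
  simp

theorem pdiff_fst {E : Type*} [NormedAddCommGroup E] [NormedSpace ℝ E] {Φ : E × E → F}
    (hΦ : ContDiffAt ℝ ∞ Φ (0, 0)) (X : E) :
    ∀ᶠ W in 𝓝 (0 : E), fderiv ℝ (fun Z => Φ (Z, W)) 0 X = fderiv ℝ Φ (0, W) (X, 0) := by
  have h1 : ∀ᶠ p in 𝓝 ((0, 0) : E × E), DifferentiableAt ℝ Φ p := by
    have h2 : ContDiffAt ℝ 1 Φ (0, 0) := hΦ.of_le (by exact_mod_cast le_top)
    filter_upwards [h2.eventually (by simp)] with p hp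
    exact hp.differentiableAt (by simp)
  have h3 : ContinuousAt (fun W : E => ((0 : E), W)) 0 := by fun_prop
  filter_upwards [h3.eventually h1] with W hW
  have h4 : HasFDerivAt (fun Z : E => (Z, W)) (ContinuousLinearMap.inl ℝ E E) 0 :=
    hasFDerivAt_prodMk_left 0 W
  have h5 := (hW.hasFDerivAt.comp (0 : E) h4).fderiv
  have h6 : (Φ ∘ fun Z => (Z, W)) = fun Z => Φ (Z, W) := rfl
  rw [← h6, h5]
  simp

theorem two_le_infty : (2 : WithTop ℕ∞) ≤ ∞ := by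
  have h : ((2 : ℕ∞) : WithTop ℕ∞) ≤ ((⊤ : ℕ∞) : WithTop ℕ∞) := WithTop.coe_le_coe.2 le_top
  exact h

/-- symmetry of mixed partial derivatives -/
theorem mixed_symm {E : Type*} [NormedAddCommGroup E] [NormedSpace ℝ E] {Φ : E × E → F}
    (hΦ : ContDiffAt ℝ ∞ Φ (0, 0)) (X Y : E) :
    fderiv ℝ (fun Z => fderiv ℝ (fun W => Φ (Z, W)) 0 X) 0 Y =
      fderiv ℝ (fun W => fderiv ℝ (fun Z => Φ (Z, W)) 0 Y) 0 X := by
  have hd : ContDiffAt ℝ 1 (fderiv ℝ Φ) (0, 0) :=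
    (hΦ.fderiv_right (m := 1) (by rw [one_add_one_eq_two]; exact two_le_infty))
  have hd' : HasFDerivAt (fderiv ℝ Φ) (fderiv ℝ (fderiv ℝ Φ) (0, 0)) ((0, 0) : E × E) :=
    (hd.differentiableAt (by simp)).hasFDerivAt
  have hs : IsSymmSndFDerivAt ℝ Φ ((0, 0) : E × E) := by
    apply hΦ.isSymmSndFDerivAt
    simpa using two_le_infty
  have e1 : fderiv ℝ (fun Z => fderiv ℝ (fun W => Φ (Z, W)) 0 X) 0 =
      fderiv ℝ (fun Z => fderiv ℝ Φ (Z, 0) (0, X)) 0 :=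
    Filter.EventuallyEq.fderiv_eq (pdiff_snd hΦ X)
  have e2 : fderiv ℝ (fun W => fderiv ℝ (fun Z => Φ (Z, W)) 0 Y) 0 =
      fderiv ℝ (fun W => fderiv ℝ Φ (0, W) (Y, 0)) 0 :=
    Filter.EventuallyEq.fderiv_eq (pdiff_fst hΦ Y)
  have h1 : HasFDerivAt (fun Z : E => fderiv ℝ Φ (Z, 0) (0, X))
      (((fderiv ℝ (fderiv ℝ Φ) (0, 0)).comp (ContinuousLinearMap.inl ℝ E E)).flip (0, X)) 0 := by
    have h4 : HasFDerivAt (fun Z : E => (Z, (0 : E))) (ContinuousLinearMap.inl ℝ E E) 0 :=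
      hasFDerivAt_prodMk_left (0 : E) (0 : E)
    have h5 : HasFDerivAt (fderiv ℝ Φ ∘ fun Z : E => (Z, (0 : E)))
      ((fderiv ℝ (fderiv ℝ Φ) (0, 0)).comp (ContinuousLinearMap.inl ℝ E E)) 0 :=
      HasFDerivAt.comp (0 : E) (g := fderiv ℝ Φ) (f := fun Z : E => (Z, (0 : E))) hd' h4
    have h6 := h5.clm_apply (hasFDerivAt_const ((0, X) : E × E) (0 : E))
    simpa using h6
  have h2 : HasFDerivAt (fun W : E => fderiv ℝ Φ (0, W) (Y, 0))
      (((fderiv ℝ (fderiv ℝ Φ) (0, 0)).comp (ContinuousLinearMap.inr ℝ E E)).flip (Y, 0)) 0 := by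
    have h4 : HasFDerivAt (fun W : E => ((0 : E), W)) (ContinuousLinearMap.inr ℝ E E) 0 :=
      hasFDerivAt_prodMk_right (0 : E) (0 : E)
    have h5 : HasFDerivAt (fderiv ℝ Φ ∘ fun W : E => ((0 : E), W))
      ((fderiv ℝ (fderiv ℝ Φ) (0, 0)).comp (ContinuousLinearMap.inr ℝ E E)) 0 :=
      HasFDerivAt.comp (0 : E) (g := fderiv ℝ Φ) (f := fun W : E => ((0 : E), W)) hd' h4
    have h6 := h5.clm_apply (hasFDerivAt_const ((Y, 0) : E × E) (0 : E))
    simpa using h6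
  rw [e1, e2, h1.fderiv, h2.fderiv]
  simp only [ContinuousLinearMap.flip_apply, ContinuousLinearMap.comp_apply,
    ContinuousLinearMap.inl_apply, ContinuousLinearMap.inr_apply]
  exact hs _ _

omit [FiniteDimensional ℝ 𝔤] [IsTopologicalGroup G] in
theorem rD_eq_chart (L : LieData G 𝔤) {f : G → F} {x : G} {Φ : 𝔤 × 𝔤 → F}
    (he : ∀ᶠ p in 𝓝 ((0, 0) : 𝔤 × 𝔤), f (x * L.exp p.1 * L.exp p.2) = Φ p) (X : 𝔤) :
    ∀ᶠ Z in 𝓝 (0 : 𝔤), L.rD X f (x * L.exp Z) = fderiv ℝ (fun W => Φ (Z, W)) 0 X := by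
  filter_upwards [he.curry_nhds] with Z hZ
  unfold LieData.rD
  rw [Filter.EventuallyEq.fderiv_eq hZ]

omit [FiniteDimensional ℝ 𝔤] [IsTopologicalGroup G] in
theorem Smooth.rD (L : LieData G 𝔤) {f : G → F} (hf : L.Smooth f) (X : 𝔤) :
    L.Smooth (L.rD X f) := by
  intro x
  obtain ⟨Φ, hΦ, he⟩ := mulChart L hf x
  have h1 : ContDiffAt ℝ ∞ (fun Z : 𝔤 => fderiv ℝ (fun W => Φ (Z, W)) 0) 0 := by
    apply ContDiffAt.fderiv (f := fun Z W => Φ (Z, W)) (g := fun _ => (0 : 𝔤)) (n := ∞)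
    · exact hΦ
    · exact contDiffAt_const
    · simp
  have h2 : ContDiffAt ℝ ∞ (fun Z : 𝔤 => fderiv ℝ (fun W => Φ (Z, W)) 0 X) 0 :=
    h1.clm_apply contDiffAt_const
  exact h2.congr_of_eventuallyEq (rD_eq_chart L he X)

omit [FiniteDimensional ℝ 𝔤] [IsTopologicalGroup G] in
theorem Smooth.comp_mul_left (L : LieData G 𝔤) {f : G → F} (hf : L.Smooth f) (g : G) :
    L.Smooth (fun x => f (g * x)) := by
  intro x
  simpa [mul_assoc] using hf (g * x)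

omit [IsTopologicalGroup G] in
theorem Smooth.comp_mul_right (L : LieData G 𝔤) {f : G → F} (hf : L.Smooth f) (g : G) :
    L.Smooth (fun x => f (x * g)) := by
  intro x
  have h1 : (fun X : 𝔤 => f (x * L.exp X * g)) =
      (fun Y : 𝔤 => f (x * g * L.exp Y)) ∘ (LinearMap.toContinuousLinearMap (L.Ad g⁻¹)) := by
    funext X
    simp only [Function.comp_apply, LinearMap.coe_toContinuousLinearMap', L.exp_Ad]
    congr 1
    group
  rw [h1]
  have h2 := hf (x * g)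
  have h3 : (LinearMap.toContinuousLinearMap (L.Ad g⁻¹)) (0 : 𝔤) = 0 := map_zero _
  rw [← h3] at h2
  exact h2.comp (0 : 𝔤) (ContinuousLinearMap.contDiff _).contDiffAt

omit [IsTopologicalGroup G] in
/-- `exp (ad X)` depends smoothly on `X`. -/
theorem contDiff_exp_ad (L : LieData G 𝔤) : ContDiff ℝ ∞ (fun X : 𝔤 =>
    NormedSpace.exp (LinearMap.toContinuousLinearMap (L.br X))) := by
  have h1 : ContDiff ℝ ∞ (NormedSpace.exp : (𝔤 →L[ℝ] 𝔤) → (𝔤 →L[ℝ] 𝔤)) := by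
    rw [contDiff_iff_contDiffAt]
    intro x
    exact (NormedSpace.exp_analytic (𝕂 := ℝ) x).contDiffAt
  have h2 : ContDiff ℝ ∞ (fun X : 𝔤 => LinearMap.toContinuousLinearMap (L.br X)) := by
    have h3 : (fun X : 𝔤 => LinearMap.toContinuousLinearMap (L.br X)) =
      LinearMap.toContinuousLinearMap
        ((LinearMap.toContinuousLinearMap (𝕜 := ℝ) (E := 𝔤) (F' := 𝔤)).toLinearMap ∘ₗ L.br) := rfl
    rw [h3]
    exact ContinuousLinearMap.contDiff _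
  exact h1.comp h2

theorem smooth_Ad (L : LieData G 𝔤) (X : 𝔤) : L.Smooth (fun x => L.Ad x X) := by
  intro x
  have h : (fun Y : 𝔤 => L.Ad (x * L.exp Y) X) = fun Y : 𝔤 =>
      (LinearMap.toContinuousLinearMap (L.Ad x))
        (NormedSpace.exp (LinearMap.toContinuousLinearMap (L.br Y)) X) := by
    funext Y
    rw [map_mul, Module.End.mul_apply, L.Ad_exp]
    rfl
  rw [h]
  exact ((ContinuousLinearMap.contDiff _).comp
    ((contDiff_exp_ad L).clm_apply contDiff_const)).contDiffAt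

theorem smooth_Ad_inv (L : LieData G 𝔤) (X : 𝔤) : L.Smooth (fun x => L.Ad x⁻¹ X) := by
  intro x
  have h : (fun Y : 𝔤 => L.Ad (x * L.exp Y)⁻¹ X) = fun Y : 𝔤 =>
        (NormedSpace.exp (LinearMap.toContinuousLinearMap (L.br (-Y))) (L.Ad x⁻¹ X)) := by
    funext Y
    rw [mul_inv_rev, ← L.exp_neg, map_mul, Module.End.mul_apply, L.Ad_exp]
  rw [h]
  exact (((contDiff_exp_ad L).comp contDiff_neg).clm_apply contDiff_const).contDiffAt

theorem rD_Ad_inv (L : LieData G 𝔤) (X Y : 𝔤) (x : G) :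
    L.rD Y (fun x => L.Ad x⁻¹ X) x = -L.br Y (L.Ad x⁻¹ X) := by
  have h1 := hasDerivAt_rD L (smooth_Ad_inv L X) Y x 0
  rw [zero_smul, L.exp_zero, mul_one] at h1
  have h2 : HasDerivAt (fun t : ℝ => L.Ad (x * L.exp (t • Y))⁻¹ X) (-L.br Y (L.Ad x⁻¹ X)) 0 := by
    have h3 := L.hasDerivAt_Ad Y (L.Ad x⁻¹ X)
    rw [← neg_zero] at h3
    have h4 := HasDerivAt.scomp (0 : ℝ) h3 (hasDerivAt_neg (0 : ℝ))
    simp only [neg_smul, one_smul] at h4
    refine h4.congr_of_eventuallyEq (Eventually.of_forall fun t => ?_)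
    simp only [Function.comp_apply]
    rw [mul_inv_rev, ← L.exp_neg, map_mul, Module.End.mul_apply, neg_smul]
  exact h1.unique h2

omit [IsTopologicalGroup G] in
/-- the key computation: `rD Y f (x exp Z)` via `Ad` -/
theorem rD_mul_exp (L : LieData G 𝔤) {f : G → F} (hf : L.Smooth f) (x g : G) (Y : 𝔤) :
    L.rD Y f (x * g) = L.rD (L.Ad g Y) (fun y => f (y * g)) x := by
  have h1 := hasDerivAt_rD L hf Y (x * g) 0
  have h2 := hasDerivAt_rD L (Smooth.comp_mul_right L hf g) (L.Ad g Y) x 0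
  rw [zero_smul, L.exp_zero, mul_one] at h1 h2
  have h3 : (fun t : ℝ => f (x * g * L.exp (t • Y))) =
      fun t : ℝ => f (x * L.exp (t • L.Ad g Y) * g) := by
    funext t
    rw [← map_smul, L.exp_Ad]
    congr 1
    group
  rw [h3] at h1
  exact h1.unique h2

omit [IsTopologicalGroup G] in
theorem rD_commutator (L : LieData G 𝔤) {f : G → F} (hf : L.Smooth f) (X Y : 𝔤) (x : G) :
    L.rD X (L.rD Y f) x - L.rD Y (L.rD X f) x = L.rD (L.br X Y) f x := by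
  obtain ⟨Φ, hΦ, he⟩ := mulChart L hf x
  -- `Ψ W = D_Z f(x exp Z exp W)` at `Z = 0`
  have hΨ : ContDiffAt ℝ ∞ (fun W : 𝔤 => fderiv ℝ (fun Z => Φ (Z, W)) 0) 0 := by
    apply ContDiffAt.fderiv (f := fun W Z => Φ (Z, W)) (g := fun _ => (0 : 𝔤)) (n := ∞)
    · exact hΦ.comp ((0, 0) : 𝔤 × 𝔤) (contDiffAt_snd.prodMk contDiffAt_fst)
    · exact contDiffAt_const
    · simp
  have he' : ∀ᶠ W in 𝓝 (0 : 𝔤), ∀ Y' : 𝔤, L.rD Y' (fun y => f (y * L.exp W)) x =
      fderiv ℝ (fun Z => Φ (Z, W)) 0 Y' := by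
    have h0 : Tendsto (Prod.swap : 𝔤 × 𝔤 → 𝔤 × 𝔤) (𝓝 (0, 0)) (𝓝 (0, 0)) :=
      continuous_swap.continuousAt
    filter_upwards [(h0.eventually he).curry_nhds] with W hW Y'
    unfold LieData.rD
    have h1 : (fun Y : 𝔤 => f (x * L.exp Y * L.exp W)) =ᶠ[𝓝 0] fun Z => Φ (Z, W) := hW
    rw [h1.fderiv_eq]
  -- first term
  have h1 := hasDerivAt_rD L (Smooth.rD L hf Y) X x 0
  rw [zero_smul, L.exp_zero, mul_one] at h1
  have hsX : Tendsto (fun s : ℝ => s • X) (𝓝 0) (𝓝 0) := by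
    have : ContinuousAt (fun s : ℝ => s • X) 0 := by fun_prop
    simpa [ContinuousAt] using this
  have h2 : (fun s : ℝ => L.rD Y f (x * L.exp (s • X))) =ᶠ[𝓝 0]
      fun s : ℝ => fderiv ℝ (fun Z => Φ (Z, s • X)) 0 (L.Ad (L.exp (s • X)) Y) := by
    filter_upwards [hsX.eventually he'] with s hs
    rw [rD_mul_exp L hf, hs]
  have hΨ1 : HasFDerivAt (fun W : 𝔤 => fderiv ℝ (fun Z => Φ (Z, W)) 0)
      (fderiv ℝ (fun W : 𝔤 => fderiv ℝ (fun Z => Φ (Z, W)) 0) 0) ((0 : ℝ) • X) := by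
    rw [zero_smul]
    exact (hΨ.differentiableAt (by simp)).hasFDerivAt
  have h3 : HasDerivAt (fun s : ℝ => s • X) X 0 := by
    simpa using (hasDerivAt_id (0 : ℝ)).smul_const X
  have h4 := (hΨ1.comp_hasDerivAt (0 : ℝ) h3)
  have h4' : HasDerivAt (fun s : ℝ => fderiv ℝ (fun Z => Φ (Z, s • X)) 0)
      ((fderiv ℝ (fun W : 𝔤 => fderiv ℝ (fun Z => Φ (Z, W)) 0) 0) X) 0 := h4
  have h5 := h4'.clm_apply (L.hasDerivAt_Ad X Y)
  have h6 := h5.congr_of_eventuallyEq h2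
  have h7 := h1.unique h6
  rw [h7]
  simp only [zero_smul, L.exp_zero, map_one, Module.End.one_apply]
  -- second term
  have h8 : L.rD Y (L.rD X f) x = fderiv ℝ (fun Z => fderiv ℝ (fun W => Φ (Z, W)) 0 X) 0 Y := by
    have h13 : (fun Z : 𝔤 => L.rD X f (x * L.exp Z)) =ᶠ[𝓝 0]
      fun Z => fderiv ℝ (fun W => Φ (Z, W)) 0 X := rD_eq_chart L he X
    have h14 : L.rD Y (L.rD X f) x = fderiv ℝ (fun Z : 𝔤 => L.rD X f (x * L.exp Z)) 0 Y := rfl
    rw [h14, h13.fderiv_eq]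
  have h9 : fderiv ℝ (fun W => fderiv ℝ (fun Z => Φ (Z, W)) 0 Y) 0 X =
      (fderiv ℝ (fun W : 𝔤 => fderiv ℝ (fun Z => Φ (Z, W)) 0) 0) X Y := by
    have h10 : HasFDerivAt (fun W : 𝔤 => fderiv ℝ (fun Z => Φ (Z, W)) 0)
      (fderiv ℝ (fun W : 𝔤 => fderiv ℝ (fun Z => Φ (Z, W)) 0) 0) 0 :=
      (hΨ.differentiableAt (by simp)).hasFDerivAt
    have h11 := h10.clm_apply (hasFDerivAt_const Y (0 : 𝔤))
    rw [h11.fderiv]
    simp
  have h12 : L.rD (L.br X Y) f x = fderiv ℝ (fun Z => Φ (Z, 0)) 0 (L.br X Y) := by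
    have := he'.self_of_nhds (L.br X Y)
    simpa [L.exp_zero] using this
  rw [h8, mixed_symm hΦ, h9, h12]
  abel

end Pool.Agent.Helper50.SG
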